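import Pool.Agent.Y605.HY.Red

/-! Straight-line realizations in `ℝ^D` for `D ≥ 2`: generic projections. -/

set_option autoImplicit false

namespace Pool.Agent.Y605.HY

open Pool.Agent.NPC Pool.Agent.Results.MP_cb2e2a_lc.RankThree Module

/-- straight-line realization in a real vector space -/
def RealIn (V : Type) [AddCommGroup V] [Module ℝ V] (H : HG) : Prop :=
  ∃ p : ℕ → V, Set.InjOn p (verts H : Set ℕ) ∧
    ∀ e ∈ hedges H, ∃ a b : V, ∀ v ∈ verts H, p v ∈ segment ℝ a b ↔ v ∈ e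

theorem RealIn.map {V W : Type} [AddCommGroup V] [Module ℝ V] [AddCommGroup W] [Module ℝ W]
    {H : HG} (T : V →ₗ[ℝ] W) (hT : Function.Injective T) (h : RealIn V H) : RealIn W H := by
  obtain ⟨p, h1, h2⟩ := h
  refine ⟨fun v => T (p v), fun x hx y hy hxy => h1 hx hy (hT hxy), fun e he => ?_⟩
  obtain ⟨a, b, hab⟩ := h2 e he
  refine ⟨T a, T b, fun v hv => ?_⟩
  rw [← hab v hv]
  have h3 := image_segment ℝ T.toAffineMap a b
  have h4 : segment ℝ (T a) (T b) = T '' segment ℝ a b := h3.symm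
  rw [h4]
  exact hT.mem_set_image

/-- the span of two vectors -/
def Sp {V : Type} [AddCommGroup V] [Module ℝ V] (x y : V) : Submodule ℝ V :=
  Submodule.span ℝ (Set.range ![x, y])

theorem mem_Sp {V : Type} [AddCommGroup V] [Module ℝ V] (x y : V) (c d : ℝ) :
    c • x + d • y ∈ Sp x y :=
  Submodule.add_mem _ (Submodule.smul_mem _ _ (Submodule.subset_span ⟨0, rfl⟩))
    (Submodule.smul_mem _ _ (Submodule.subset_span ⟨1, rfl⟩))

theorem Sp_ne_top {V : Type} [AddCommGroup V] [Module ℝ V] [FiniteDimensional ℝ V]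
    (h : 3 ≤ finrank ℝ V) (x y : V) : Sp x y ≠ ⊤ := by
  intro h1
  have h2 : finrank ℝ (Sp x y) ≤ 2 := by
    have h3 := finrank_range_le_card (R := ℝ) (M := V) ![x, y]
    rw [Fintype.card_fin] at h3
    exact h3
  rw [h1, finrank_top] at h2
  omega

theorem down {V : Type} [AddCommGroup V] [Module ℝ V] [FiniteDimensional ℝ V] {H : HG}
    (h3 : 3 ≤ finrank ℝ V) (h : RealIn V H) :
    ∃ w : V, w ≠ 0 ∧ RealIn (V ⧸ Submodule.span ℝ {w}) H := by
  classical
  obtain ⟨p, h1, h2⟩ := h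
  choose! a b hab using h2
  set s : Finset (Submodule ℝ V) := insert (Sp 0 0)
    (((verts H ×ˢ verts H).image fun q => Sp (p q.1 - p q.2) 0) ∪
      ((hedges H ×ˢ verts H).image fun q => Sp (p q.2 - a q.1) (b q.1 - a q.1))) with hs
  have hs' : ⊤ ∉ s := by
    intro ht
    rw [hs, Finset.mem_insert, Finset.mem_union, Finset.mem_image, Finset.mem_image] at ht
    rcases ht with ht | ⟨q, _, ht⟩ | ⟨q, _, ht⟩
    · exact Sp_ne_top h3 _ _ ht.symm
    · exact Sp_ne_top h3 _ _ ht
    · exact Sp_ne_top h3 _ _ ht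
  have hw := Subspace.biUnion_ne_univ_of_top_notMem (k := ℝ) (E := V) hs'
  obtain ⟨w, hw⟩ := (Set.ne_univ_iff_exists_notMem _).1 hw
  simp only [Set.mem_iUnion, not_exists] at hw
  have w0 : ∀ c d : ℝ, w ≠ c • (0 : V) + d • (0 : V) := by
    intro c d hc
    exact hw _ (Finset.mem_insert_self _ _) (hc ▸ mem_Sp _ _ c d)
  have w1 : ∀ u ∈ verts H, ∀ v ∈ verts H, ∀ c : ℝ, w ≠ c • (p u - p v) := by
    intro u hu v hv c hc
    refine hw (Sp (p u - p v) 0) (Finset.mem_insert_of_mem (Finset.mem_union_left _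
      (Finset.mem_image.2 ⟨(u, v), Finset.mem_product.2 ⟨hu, hv⟩, rfl⟩))) ?_
    have := mem_Sp (p u - p v) 0 c 0
    rwa [smul_zero, add_zero, ← hc] at this
  have w2 : ∀ e ∈ hedges H, ∀ v ∈ verts H, ∀ c d : ℝ,
      w ≠ c • (p v - a e) + d • (b e - a e) := by
    intro e he v hv c d hc
    refine hw (Sp (p v - a e) (b e - a e)) (Finset.mem_insert_of_mem (Finset.mem_union_right _
      (Finset.mem_image.2 ⟨(e, v), Finset.mem_product.2 ⟨he, hv⟩, rfl⟩))) ?_
    rw [SetLike.mem_coe, hc]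
    exact mem_Sp _ _ c d
  have hw0 : w ≠ 0 := by
    intro h
    exact w0 0 0 (by rw [h]; simp)
  refine ⟨w, hw0, fun v => Submodule.Quotient.mk (p v), ?_, fun e he => ?_⟩
  · intro u hu v hv huv
    have h4 := (Submodule.Quotient.eq _).1 huv
    rw [Submodule.mem_span_singleton] at h4
    obtain ⟨c, hc⟩ := h4
    by_cases hc0 : c = 0
    · rw [hc0, zero_smul] at hc
      exact h1 hu hv (sub_eq_zero.1 hc.symm)
    · exfalso
      apply w1 u hu v hv c⁻¹
      rw [← hc, smul_smul, inv_mul_cancel₀ hc0, one_smul]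
  · refine ⟨Submodule.Quotient.mk (a e), Submodule.Quotient.mk (b e), fun v hv => ?_⟩
    rw [← hab e he v hv]
    have h5 := image_segment ℝ (Submodule.span ℝ {w}).mkQ.toAffineMap (a e) (b e)
    have h6 : segment ℝ (Submodule.Quotient.mk (a e) : V ⧸ Submodule.span ℝ {w})
        (Submodule.Quotient.mk (b e)) =
        (fun x => (Submodule.Quotient.mk x : V ⧸ Submodule.span ℝ {w})) '' segment ℝ (a e) (b e) :=
      h5.symm
    rw [h6]
    constructor
    · rintro ⟨y, hy, hyv⟩
      have h4 := (Submodule.Quotient.eq _).1 hyv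
      rw [Submodule.mem_span_singleton] at h4
      obtain ⟨c, hc⟩ := h4
      by_cases hc0 : c = 0
      · rw [hc0, zero_smul] at hc
        rw [← sub_eq_zero.1 hc.symm]
        exact hy
      · exfalso
        rw [segment_eq_image'] at hy
        obtain ⟨t, _, rfl⟩ := hy
        apply w2 e he v hv (-c⁻¹) (c⁻¹ * t)
        have h7 : w = c⁻¹ • (c • w) := by rw [smul_smul, inv_mul_cancel₀ hc0, one_smul]
        rw [h7, hc]
        module
    · intro h
      exact ⟨_, h, rfl⟩

theorem realizable_of_real {H : HG} : ∀ (n : ℕ) (V : Type) [AddCommGroup V] [Module ℝ V]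
    [FiniteDimensional ℝ V], finrank ℝ V = n + 2 → RealIn V H → Realizable H := by
  intro n
  induction n with
  | zero =>
    intro V _ _ _ hV h
    have h1 : finrank ℝ V = finrank ℝ (ℝ × ℝ) := by
      rw [hV]; simp
    exact h.map (LinearEquiv.ofFinrankEq V (ℝ × ℝ) h1).toLinearMap
      (LinearEquiv.ofFinrankEq V (ℝ × ℝ) h1).injective
  | succ n ih =>
    intro V _ _ _ hV h
    obtain ⟨w, hw, h2⟩ := down (by omega) h
    refine ih (V ⧸ Submodule.span ℝ {w}) ?_ h2
    have h3 := Submodule.finrank_quotient_add_finrank (Submodule.span ℝ {w} : Submodule ℝ V)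
    rw [finrank_span_singleton hw] at h3
    omega

theorem real_iff {D : ℕ} (hD : 2 ≤ D) (H : HG) :
    RealIn (EuclideanSpace ℝ (Fin D)) H ↔ Realizable H := by
  constructor
  · intro h
    refine realizable_of_real (D - 2) _ ?_ h
    rw [finrank_euclideanSpace_fin]
    omega
  · intro h
    have h1 : finrank ℝ (ℝ × ℝ) ≤ finrank ℝ (EuclideanSpace ℝ (Fin D)) := by
      rw [finrank_euclideanSpace_fin]
      simpa using hD
    obtain ⟨T, hT⟩ := finrank_le_iff_exists_linearMap.1 h1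
    exact RealIn.map (V := ℝ × ℝ) T hT h

end Pool.Agent.Y605.HY
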