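import Mathlib

/-! Segments that carry the hyperedges of a linear hypergraph: after shrinking them to the hulls of
their vertices any two of them meet in at most one point. -/

set_option autoImplicit false

namespace Pool.Agent.Y605.HY



theorem seg_param {A B x y : ℝ × ℝ} (hx : x ∈ segment ℝ A B) (hy : y ∈ segment ℝ A B)
    (hne : x ≠ y) :
    ∃ α β : ℝ, α ≤ 0 ∧ 1 ≤ β ∧
      segment ℝ A B = segment ℝ (AffineMap.lineMap x y α) (AffineMap.lineMap x y β) ∧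
      (AffineMap.lineMap x y α = A ∨ AffineMap.lineMap x y α = B) ∧
      (AffineMap.lineMap x y β = A ∨ AffineMap.lineMap x y β = B) := by
  rw [segment_eq_image'] at hx hy
  obtain ⟨s, ⟨hs0, hs1⟩, hx⟩ := hx
  obtain ⟨t, ⟨ht0, ht1⟩, hy⟩ := hy
  have hx' : A + s • (B - A) = x := hx
  have hy' : A + t • (B - A) = y := hy
  have hst : t - s ≠ 0 := by
    intro h
    apply hne
    rw [← hx', ← hy', show s = t by linarith]
  have key : ∀ r : ℝ, AffineMap.lineMap x y ((r - s) / (t - s)) = A + r • (B - A) := by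
    intro r
    rw [AffineMap.lineMap_apply, vsub_eq_sub, vadd_eq_add, ← hx', ← hy']
    have h1 : A + t • (B - A) - (A + s • (B - A)) = (t - s) • (B - A) := by
      rw [sub_smul]; abel
    rw [h1, smul_smul, div_mul_cancel₀ _ hst]
    rw [sub_smul]; abel
  have k0 : AffineMap.lineMap x y ((0 - s) / (t - s)) = A := by rw [key]; simp
  have k1 : AffineMap.lineMap x y ((1 - s) / (t - s)) = B := by rw [key]; simp
  rcases lt_or_gt_of_ne hst with h | h
  · refine ⟨(1 - s) / (t - s), (0 - s) / (t - s), ?_, ?_, ?_, Or.inr k1, Or.inl k0⟩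
    · exact div_nonpos_of_nonneg_of_nonpos (by linarith) h.le
    · rw [one_le_div_of_neg h]; linarith
    · rw [k0, k1, segment_symm]
  · refine ⟨(0 - s) / (t - s), (1 - s) / (t - s), ?_, ?_, ?_, Or.inl k0, Or.inr k1⟩
    · exact div_nonpos_of_nonpos_of_nonneg (by linarith) h.le
    · rw [one_le_div h]; linarith
    · rw [k0, k1]

theorem mem_seg {x y : ℝ × ℝ} {α β τ : ℝ} (h1 : α ≤ τ) (h2 : τ ≤ β) :
    AffineMap.lineMap x y τ ∈ segment ℝ (AffineMap.lineMap x y α) (AffineMap.lineMap x y β) := by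
  have h := image_segment ℝ (AffineMap.lineMap x y : ℝ →ᵃ[ℝ] ℝ × ℝ) α β
  rw [← h, segment_eq_Icc (h1.trans h2)]
  exact ⟨τ, ⟨h1, h2⟩, rfl⟩

theorem overlap {A B C D x y : ℝ × ℝ} (hx : x ∈ segment ℝ A B) (hy : y ∈ segment ℝ A B)
    (hx' : x ∈ segment ℝ C D) (hy' : y ∈ segment ℝ C D) (hne : x ≠ y) :
    ∃ z w : ℝ × ℝ, z ≠ w ∧ (z ∈ segment ℝ A B ∧ z ∈ segment ℝ C D) ∧
      (w ∈ segment ℝ A B ∧ w ∈ segment ℝ C D) ∧
      (z = A ∨ z = B ∨ z = C ∨ z = D) ∧ (w = A ∨ w = B ∨ w = C ∨ w = D) := by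
  obtain ⟨α, β, h1, h2, h3, h4, h5⟩ := seg_param hx hy hne
  obtain ⟨γ, δ, g1, g2, g3, g4, g5⟩ := seg_param hx' hy' hne
  refine ⟨AffineMap.lineMap x y (max α γ), AffineMap.lineMap x y (min β δ), ?_, ⟨?_, ?_⟩, ⟨?_, ?_⟩,
    ?_, ?_⟩
  · intro h
    have h6 := AffineMap.lineMap_injective ℝ hne h
    have h7 : max α γ ≤ 0 := max_le h1 g1
    have h8 : 1 ≤ min β δ := le_min h2 g2
    linarith
  · rw [h3]; exact mem_seg (le_max_left _ _) ((max_le h1 g1).trans (by linarith))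
  · rw [g3]; exact mem_seg (le_max_right _ _) ((max_le h1 g1).trans (by linarith))
  · rw [h3]; exact mem_seg (h1.trans (by have := le_min h2 g2; linarith)) (min_le_left _ _)
  · rw [g3]; exact mem_seg (g1.trans (by have := le_min h2 g2; linarith)) (min_le_right _ _)
  · rcases max_choice α γ with h | h <;> rw [h]
    · tauto
    · tauto
  · rcases min_choice β δ with h | h <;> rw [h]
    · tauto
    · tauto

/-- The segments of a realization can be shrunk to the hulls of their vertices. -/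
theorem shrink {V e : Finset ℕ} {p : ℕ → ℝ × ℝ} (hp : Set.InjOn p (V : Set ℕ)) (heV : e ⊆ V)
    (he : 2 ≤ e.card) {a b : ℝ × ℝ} (h : ∀ v ∈ V, p v ∈ segment ℝ a b ↔ v ∈ e) :
    ∃ u ∈ e, ∃ w ∈ e, p u ≠ p w ∧ ∀ v ∈ V, p v ∈ segment ℝ (p u) (p w) ↔ v ∈ e := by
  have hne : e.Nonempty := Finset.card_pos.1 (by omega)
  have hpar : ∀ v ∈ e, ∃ t ∈ Set.Icc (0 : ℝ) 1, AffineMap.lineMap a b t = p v := by
    intro v hv
    have h1 := (h v (heV hv)).2 hv
    rw [segment_eq_image_lineMap] at h1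
    exact h1
  choose! t ht htp using hpar
  obtain ⟨u, hu, hu'⟩ := e.exists_min_image t hne
  obtain ⟨w, hw, hw'⟩ := e.exists_max_image t hne
  have hin : ∀ v ∈ e, p v ∈ segment ℝ (p u) (p w) := by
    intro v hv
    rw [← htp v hv, ← htp u hu, ← htp w hw]
    exact mem_seg (hu' v hv) (hw' v hv)
  refine ⟨u, hu, w, hw, ?_, fun v hv => ⟨fun h1 => ?_, hin v⟩⟩
  · intro huw
    obtain ⟨v, hv, hvu⟩ : ∃ v ∈ e, v ≠ u := Finset.exists_mem_ne (by omega) u
    have h1 := hin v hv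
    rw [← huw, segment_same, Set.mem_singleton_iff] at h1
    exact hvu (hp (heV hv) (heV hu) h1)
  · rw [← h v hv]
    exact (convex_segment a b).segment_subset ((h u (heV hu)).2 hu) ((h w (heV hw)).2 hw) h1

theorem meet {V e f : Finset ℕ} {p : ℕ → ℝ × ℝ} (heV : e ⊆ V) (hfV : f ⊆ V)
    (hef : (e ∩ f).card ≤ 1) {u w u' w' : ℕ} (hu : u ∈ e) (hw : w ∈ e) (hu' : u' ∈ f)
    (hw' : w' ∈ f)
    (h : ∀ v ∈ V, p v ∈ segment ℝ (p u) (p w) ↔ v ∈ e)
    (h' : ∀ v ∈ V, p v ∈ segment ℝ (p u') (p w') ↔ v ∈ f) :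
    (segment ℝ (p u) (p w) ∩ segment ℝ (p u') (p w')).Subsingleton := by
  intro x hx y hy
  by_contra hne
  obtain ⟨z, z', hz, hz1, hz2, hz3, hz4⟩ := overlap hx.1 hy.1 hx.2 hy.2 hne
  have key : ∀ q : ℝ × ℝ, (q ∈ segment ℝ (p u) (p w) ∧ q ∈ segment ℝ (p u') (p w')) →
      (q = p u ∨ q = p w ∨ q = p u' ∨ q = p w') → ∃ v ∈ e ∩ f, p v = q := by
    rintro q ⟨h1, h2⟩ h3
    have h4 : ∃ v ∈ V, p v = q := by
      rcases h3 with rfl | rfl | rfl | rfl
      · exact ⟨u, heV hu, rfl⟩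
      · exact ⟨w, heV hw, rfl⟩
      · exact ⟨u', hfV hu', rfl⟩
      · exact ⟨w', hfV hw', rfl⟩
    obtain ⟨v, hv, rfl⟩ := h4
    exact ⟨v, Finset.mem_inter.2 ⟨(h v hv).1 h1, (h' v hv).1 h2⟩, rfl⟩
  obtain ⟨v, hv, rfl⟩ := key z hz1 hz3
  obtain ⟨v', hv', rfl⟩ := key z' hz2 hz4
  apply hz
  rw [Finset.card_le_one.1 hef v hv v' hv']

theorem seg_infinite {a b : ℝ × ℝ} (h : a ≠ b) : (segment ℝ a b).Infinite := by
  rw [segment_eq_image_lineMap]
  exact (Set.Icc_infinite one_pos).image (AffineMap.lineMap_injective ℝ h).injOn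

end Pool.Agent.Y605.HY
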