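import Pool.Agent.Y605.HY.Geo
import Pool.Agent.Results.MP_cb2e2a_lc.RankThree

/-! Padding all the hyperedges of a linear hypergraph of rank at most three to size `k`. -/

set_option autoImplicit false

namespace Pool.Agent.Y605.HY

open Pool.Agent.NPC Pool.Agent.Results.MP_cb2e2a_lc.RankThree

/-- maximum of a list with two or three entries -/
def hi (l : List ℕ) : ℕ :=
  max (l.head?.getD 0) (max (l.tail.head?.getD 0) (l.tail.tail.head?.getD 0))

/-- minimum of a list with two or three entries -/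
def lo (l : List ℕ) : ℕ :=
  min (l.head?.getD 0) (min (l.tail.head?.getD 0) ((l.tail.tail ++ l).head?.getD 0))

/-- a number that determines the minimum and the maximum -/
def code (l : List ℕ) : ℕ := (lo l + hi l) * (lo l + hi l) + lo l

/-- the padded hyperedge -/
def padE (k : ℕ) (l : List ℕ) : List ℕ :=
  l.map (fun v => 2 * v) ++
    ((List.range k).filter (fun i => decide (l.length ≤ i))).map
      (fun i => 2 * (code l * k + i) + 1)

/-- the padded hypergraph -/
def pad (k : ℕ) (E : List (List ℕ)) : HG := ((E.map (padE k)).flatten, E.map (padE k))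

/-- linear, all hyperedges have two or three vertices -/
structure Good (E : List (List ℕ)) : Prop where
  len : ∀ l ∈ E, 2 ≤ l.length ∧ l.length ≤ 3
  nd : ∀ l ∈ E, l.Nodup
  lin : ∀ l ∈ E, ∀ m ∈ E, l.toFinset ≠ m.toFinset → (l.toFinset ∩ m.toFinset).card ≤ 1

theorem lo_hi : ∀ {l : List ℕ}, 2 ≤ l.length → l.length ≤ 3 →
    lo l ∈ l ∧ hi l ∈ l ∧ ∀ v ∈ l, lo l ≤ v ∧ v ≤ hi l
  | [], h, _ => by simp at h
  | [_], h, _ => by simp at h
  | [a, b], _, _ => by
    simp only [lo, hi, List.tail_cons, List.head?_cons, List.head?_nil, List.nil_append,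
      List.cons_append, Option.getD_some, Option.getD_none, List.mem_cons, List.not_mem_nil, or_false]
    refine ⟨by omega, by omega, ?_⟩
    intro v hv
    omega
  | [a, b, c], _, _ => by
    simp only [lo, hi, List.tail_cons, List.head?_cons, List.head?_nil, List.nil_append,
      List.cons_append, Option.getD_some, Option.getD_none, List.mem_cons, List.not_mem_nil, or_false]
    refine ⟨by omega, by omega, ?_⟩
    intro v hv
    omega
  | _ :: _ :: _ :: _ :: _, _, h => by
    exfalso
    simp only [List.length_cons] at h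
    omega

theorem code_inj {l m : List ℕ} (h : code l = code m) : lo l = lo m ∧ hi l = hi m := by
  unfold code at h
  have h1 : lo l + hi l = lo m + hi m := by
    rcases lt_trichotomy (lo l + hi l) (lo m + hi m) with h1 | h1 | h1
    · exfalso
      have h2 : lo l ≤ lo l + hi l := by omega
      nlinarith
    · exact h1
    · exfalso
      have h2 : lo m ≤ lo m + hi m := by omega
      nlinarith
  rw [h1] at h
  omega

theorem lo_ne_hi {l : List ℕ} (h2 : 2 ≤ l.length) (h3 : l.length ≤ 3) (hn : l.Nodup) :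
    lo l ≠ hi l := by
  intro h
  obtain ⟨-, -, h4⟩ := lo_hi h2 h3
  have h5 : l.toFinset.card ≤ 1 := by
    rw [Finset.card_le_one]
    intro a ha b hb
    rw [List.mem_toFinset] at ha hb
    have := h4 a ha
    have := h4 b hb
    omega
  rw [List.toFinset_card_of_nodup hn] at h5
  omega

theorem code_eq_iff {E : List (List ℕ)} (hE : Good E) {l m : List ℕ} (hl : l ∈ E) (hm : m ∈ E) :
    code l = code m ↔ l.toFinset = m.toFinset := by
  obtain ⟨a1, a2, a3⟩ := lo_hi (hE.len l hl).1 (hE.len l hl).2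
  obtain ⟨b1, b2, b3⟩ := lo_hi (hE.len m hm).1 (hE.len m hm).2
  constructor
  · intro h
    by_contra hne
    have h1 := hE.lin l hl m hm hne
    obtain ⟨h2, h3⟩ := code_inj h
    apply lo_ne_hi (hE.len l hl).1 (hE.len l hl).2 (hE.nd l hl)
    apply Finset.card_le_one.1 h1
    · rw [Finset.mem_inter, List.mem_toFinset, List.mem_toFinset]
      exact ⟨a1, h2 ▸ b1⟩
    · rw [Finset.mem_inter, List.mem_toFinset, List.mem_toFinset]
      exact ⟨a2, h3 ▸ b2⟩
  · intro h
    have hmem : ∀ v, v ∈ l ↔ v ∈ m := by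
      intro v
      rw [← List.mem_toFinset, h, List.mem_toFinset]
    have h1 : lo l = lo m :=
      le_antisymm (a3 _ ((hmem _).2 b1)).1 (b3 _ ((hmem _).1 a1)).1
    have h2 : hi l = hi m :=
      le_antisymm (b3 _ ((hmem _).1 a2)).2 (a3 _ ((hmem _).2 b2)).2
    unfold code
    rw [h1, h2]

theorem len_eq {E : List (List ℕ)} (hE : Good E) {l m : List ℕ} (hl : l ∈ E) (hm : m ∈ E)
    (h : l.toFinset = m.toFinset) : l.length = m.length := by
  rw [← List.toFinset_card_of_nodup (hE.nd l hl), ← List.toFinset_card_of_nodup (hE.nd m hm), h]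

theorem mem_padE {k : ℕ} {l : List ℕ} {x : ℕ} : x ∈ padE k l ↔
    (∃ v ∈ l, x = 2 * v) ∨ ∃ i < k, l.length ≤ i ∧ x = 2 * (code l * k + i) + 1 := by
  unfold padE
  rw [List.mem_append, List.mem_map, List.mem_map]
  constructor
  · rintro (⟨v, hv, rfl⟩ | ⟨i, hi, rfl⟩)
    · exact Or.inl ⟨v, hv, rfl⟩
    · rw [List.mem_filter, List.mem_range, decide_eq_true_iff] at hi
      exact Or.inr ⟨i, hi.1, hi.2, rfl⟩
  · rintro (⟨v, hv, rfl⟩ | ⟨i, hi, hi', rfl⟩)
    · exact Or.inl ⟨v, hv, rfl⟩
    · refine Or.inr ⟨i, ?_, rfl⟩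
      rw [List.mem_filter, List.mem_range, decide_eq_true_iff]
      exact ⟨hi, hi'⟩

theorem mem_even {k : ℕ} {l : List ℕ} {v : ℕ} : 2 * v ∈ padE k l ↔ v ∈ l := by
  rw [mem_padE]
  constructor
  · rintro (⟨w, hw, h⟩ | ⟨i, _, _, h⟩)
    · rwa [show v = w by omega]
    · omega
  · intro h
    exact Or.inl ⟨v, h, rfl⟩

theorem dk {k c d i j : ℕ} (hi : i < k) (hj : j < k) (h : c * k + i = d * k + j) :
    c = d ∧ i = j := by
  have hk : 0 < k := by omega
  have h1 : (c * k + i) / k = c := by
    rw [Nat.add_comm, Nat.add_mul_div_right _ _ hk, Nat.div_eq_of_lt hi, Nat.zero_add]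
  have h2 : (d * k + j) / k = d := by
    rw [Nat.add_comm, Nat.add_mul_div_right _ _ hk, Nat.div_eq_of_lt hj, Nat.zero_add]
  have h3 : c = d := by rw [← h1, ← h2, h]
  subst h3
  exact ⟨rfl, by omega⟩

theorem padE_congr {E : List (List ℕ)} (hE : Good E) {k : ℕ} {l m : List ℕ} (hl : l ∈ E)
    (hm : m ∈ E) (h : l.toFinset = m.toFinset) (x : ℕ) : x ∈ padE k l ↔ x ∈ padE k m := by
  have hmem : ∀ v, v ∈ l ↔ v ∈ m := by
    intro v
    rw [← List.mem_toFinset, h, List.mem_toFinset]
  rw [mem_padE, mem_padE, (code_eq_iff hE hl hm).2 h, len_eq hE hl hm h]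
  simp only [hmem]

theorem len_filter (c k : ℕ) :
    ((List.range k).filter (fun i => decide (c ≤ i))).length = k - c := by
  induction k with
  | zero => simp
  | succ k ih =>
    rw [List.range_succ, List.filter_append, List.length_append, ih]
    by_cases h : c ≤ k
    · simp [h]; omega
    · simp [h]; omega

theorem nodup_padE {E : List (List ℕ)} (hE : Good E) {k : ℕ} {l : List ℕ} (hl : l ∈ E) :
    (padE k l).Nodup := by
  unfold padE
  refine List.Nodup.append ?_ ?_ ?_
  · exact (hE.nd l hl).map (fun a b h => by simpa using h)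
  · refine (List.nodup_range.filter _).map (fun a b h => ?_)
    have h' : 2 * (code l * k + a) + 1 = 2 * (code l * k + b) + 1 := h
    omega
  · intro x hx hy
    rw [List.mem_map] at hx hy
    obtain ⟨a, _, rfl⟩ := hx
    obtain ⟨b, _, hb⟩ := hy
    omega

theorem card_padE {E : List (List ℕ)} (hE : Good E) {k : ℕ} (hk : 3 ≤ k) {l : List ℕ}
    (hl : l ∈ E) : (padE k l).toFinset.card = k := by
  rw [List.toFinset_card_of_nodup (nodup_padE hE hl)]
  unfold padE
  rw [List.length_append, List.length_map, List.length_map, len_filter]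
  have := (hE.len l hl).2
  omega

theorem mem_verts_pad {E : List (List ℕ)} {k x : ℕ} :
    x ∈ verts (pad k E) ↔ ∃ l ∈ E, x ∈ padE k l := by
  unfold verts pad
  simp [List.mem_flatten]

theorem mem_verts {E : List (List ℕ)} {x : ℕ} :
    x ∈ verts (E.flatten, E) ↔ ∃ l ∈ E, x ∈ l := by
  unfold verts
  simp [List.mem_flatten]

theorem mem_hedges_pad {E : List (List ℕ)} {k : ℕ} {e : Finset ℕ} :
    e ∈ hedges (pad k E) ↔ ∃ l ∈ E, (padE k l).toFinset = e := by
  unfold hedges pad
  simp

theorem mem_hedges' {E : List (List ℕ)} {e : Finset ℕ} :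
    e ∈ hedges (E.flatten, E) ↔ ∃ l ∈ E, l.toFinset = e := by
  unfold hedges
  simp

theorem props_pad {E : List (List ℕ)} (hE : Good E) {k : ℕ} (hk : 3 ≤ k) :
    IsHypergraph (pad k E) ∧ IsLinear (pad k E) ∧ ∀ e ∈ hedges (pad k E), e.card = k := by
  refine ⟨?_, ?_, ?_⟩
  · intro e he
    rw [mem_hedges_pad] at he
    obtain ⟨l, hl, rfl⟩ := he
    refine ⟨fun x hx => ?_, by rw [card_padE hE hk hl]; omega⟩
    rw [mem_verts_pad]
    exact ⟨l, hl, List.mem_toFinset.1 hx⟩
  · intro e he f hf hne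
    rw [mem_hedges_pad] at he hf
    obtain ⟨l, hl, rfl⟩ := he
    obtain ⟨m, hm, rfl⟩ := hf
    have h1 : l.toFinset ≠ m.toFinset := by
      intro h
      apply hne
      ext x
      rw [List.mem_toFinset, List.mem_toFinset]
      exact padE_congr hE hl hm h x
    have key : ∀ x ∈ (padE k l).toFinset ∩ (padE k m).toFinset,
        ∃ v ∈ l.toFinset ∩ m.toFinset, x = 2 * v := by
      intro x hx
      rw [Finset.mem_inter, List.mem_toFinset, List.mem_toFinset] at hx
      obtain ⟨hx1, hx2⟩ := hx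
      have hx1' := hx1
      rw [mem_padE] at hx1
      rcases hx1 with ⟨v, hv, rfl⟩ | ⟨i, hi, _, rfl⟩
      · rw [mem_even] at hx2
        exact ⟨v, by simp [hv, hx2], rfl⟩
      · rw [mem_padE] at hx2
        rcases hx2 with ⟨v, _, h2⟩ | ⟨j, hj, _, h2⟩
        · omega
        · exfalso
          have h3 := (dk hi hj (by omega : code l * k + i = code m * k + j)).1
          exact h1 ((code_eq_iff hE hl hm).1 h3)
    rw [Finset.card_le_one]
    intro x hx y hy
    obtain ⟨v, hv, rfl⟩ := key x hx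
    obtain ⟨w, hw, rfl⟩ := key y hy
    rw [Finset.card_le_one.1 (hE.lin l hl m hm h1) v hv w hw]
  · intro e he
    rw [mem_hedges_pad] at he
    obtain ⟨l, hl, rfl⟩ := he
    exact card_padE hE hk hl

theorem realizable_pad {E : List (List ℕ)} (hE : Good E) {k : ℕ} :
    Realizable (pad k E) ↔ Realizable (E.flatten, E) := by
  constructor
  · rintro ⟨p, h1, h2⟩
    have hv : ∀ v ∈ verts (E.flatten, E), 2 * v ∈ verts (pad k E) := by
      intro v hv
      rw [mem_verts] at hv
      obtain ⟨l, hl, hvl⟩ := hv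
      rw [mem_verts_pad]
      exact ⟨l, hl, mem_even.2 hvl⟩
    refine ⟨fun v => p (2 * v), ?_, ?_⟩
    · intro x hx y hy hxy
      have := h1 (hv x hx) (hv y hy) hxy
      omega
    · intro e he
      rw [mem_hedges'] at he
      obtain ⟨l, hl, rfl⟩ := he
      obtain ⟨a, b, hab⟩ := h2 _ (mem_hedges_pad.2 ⟨l, hl, rfl⟩)
      refine ⟨a, b, fun v hvv => ?_⟩
      rw [hab _ (hv v hvv), List.mem_toFinset, mem_even, List.mem_toFinset]
  · rintro ⟨p, h1, h2⟩
    set H : HG := (E.flatten, E) with hH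
    have hsub : ∀ e ∈ hedges H, e ⊆ verts H := by
      intro e he
      rw [mem_hedges'] at he
      obtain ⟨l, hl, rfl⟩ := he
      intro v hv
      rw [mem_verts]
      exact ⟨l, hl, List.mem_toFinset.1 hv⟩
    have key : ∀ e ∈ hedges H, ∃ u ∈ e, ∃ w ∈ e, p u ≠ p w ∧
        ∀ v ∈ verts H, p v ∈ segment ℝ (p u) (p w) ↔ v ∈ e := by
      intro e he
      obtain ⟨a, b, hab⟩ := h2 e he
      refine shrink h1 (hsub e he) ?_ hab
      rw [mem_hedges'] at he
      obtain ⟨l, hl, rfl⟩ := he
      rw [List.toFinset_card_of_nodup (hE.nd l hl)]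
      exact (hE.len l hl).1
    choose! u hu w hw hne hseg using key
    have hlin : ∀ e ∈ hedges H, ∀ f ∈ hedges H, e ≠ f → (e ∩ f).card ≤ 1 := by
      intro e he f hf hef
      rw [mem_hedges'] at he hf
      obtain ⟨l, hl, rfl⟩ := he
      obtain ⟨m, hm, rfl⟩ := hf
      exact hE.lin l hl m hm hef
    have hT : ∀ e ∈ hedges H, ∃ z : ℕ → ℝ × ℝ, Function.Injective z ∧
        (∀ i, z i ∈ segment ℝ (p (u e)) (p (w e))) ∧ (∀ i, ∀ v ∈ verts H, z i ≠ p v) ∧
        ∀ i, ∀ f ∈ hedges H, f ≠ e → z i ∉ segment ℝ (p (u f)) (p (w f)) := by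
      intro e he
      have hfin : ((⋃ f ∈ (((hedges H).erase e : Finset (Finset ℕ)) : Set (Finset ℕ)),
          segment ℝ (p (u e)) (p (w e)) ∩ segment ℝ (p (u f)) (p (w f))) ∪
            p '' (verts H : Set ℕ)).Finite := by
        refine Set.Finite.union ?_ ((verts H).finite_toSet.image p)
        refine Set.Finite.biUnion (Finset.finite_toSet _) fun f hf => ?_
        have hf' := Finset.mem_erase.1 (Finset.mem_coe.1 hf)
        exact (meet (hsub e he) (hsub f hf'.2) (hlin e he f hf'.2 (Ne.symm hf'.1)) (hu e he)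
          (hw e he) (hu f hf'.2) (hw f hf'.2) (hseg e he) (hseg f hf'.2)).finite
      have hinf := (seg_infinite (hne e he)).sdiff hfin
      refine ⟨fun i => (hinf.natEmbedding _ i : ℝ × ℝ), ?_, fun i => ?_, fun i v hv => ?_,
        fun i f hf hfe => ?_⟩
      · exact Subtype.val_injective.comp (hinf.natEmbedding _).injective
      · exact (hinf.natEmbedding _ i).2.1
      · intro h
        exact (hinf.natEmbedding _ i).2.2 (Or.inr ⟨v, hv, h.symm⟩)
      · intro h
        refine (hinf.natEmbedding _ i).2.2 (Or.inl ?_)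
        rw [Set.mem_iUnion₂]
        exact ⟨f, Finset.mem_coe.2 (Finset.mem_erase.2 ⟨hfe, hf⟩),
          (hinf.natEmbedding _ i).2.1, h⟩
    choose! z hz1 hz2 hz3 hz4 using hT
    obtain ⟨ec, hec⟩ : ∃ ec : ℕ → Finset ℕ, ∀ l ∈ E, ec (code l) = l.toFinset := by
      classical
      refine ⟨fun c => if h : ∃ l ∈ E, code l = c then h.choose.toFinset else ∅, fun l hl => ?_⟩
      have h : ∃ m ∈ E, code m = code l := ⟨l, hl, rfl⟩
      show (if h : ∃ m ∈ E, code m = code l then h.choose.toFinset else ∅) = l.toFinset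
      rw [dif_pos h]
      exact (code_eq_iff hE h.choose_spec.1 hl).1 h.choose_spec.2
    set q : ℕ → ℝ × ℝ := fun n => if n % 2 = 0 then p (n / 2) else z (ec (n / 2 / k)) (n / 2 % k)
      with hq
    have q0 : ∀ v, q (2 * v) = p v := by
      intro v
      rw [hq]
      simp
    have q1 : ∀ l ∈ E, ∀ i < k, q (2 * (code l * k + i) + 1) = z l.toFinset i := by
      intro l hl i hi
      have hk : 0 < k := by omega
      have e1 : (2 * (code l * k + i) + 1) % 2 = 1 := by omega
      have e2 : (2 * (code l * k + i) + 1) / 2 = code l * k + i := by omega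
      have e3 : (code l * k + i) / k = code l := by
        rw [Nat.add_comm, Nat.add_mul_div_right _ _ hk, Nat.div_eq_of_lt hi, Nat.zero_add]
      have e4 : (code l * k + i) % k = i := by
        rw [Nat.add_comm, Nat.add_mul_mod_self_right, Nat.mod_eq_of_lt hi]
      show (if (2 * (code l * k + i) + 1) % 2 = 0 then _ else _) = _
      rw [if_neg (by omega), e2, e3, e4, hec l hl]
    have hvm : ∀ l ∈ E, ∀ v ∈ l, v ∈ verts H := fun l hl v hv => mem_verts.2 ⟨l, hl, hv⟩
    have hem : ∀ l ∈ E, l.toFinset ∈ hedges H := fun l hl => mem_hedges'.2 ⟨l, hl, rfl⟩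
    refine ⟨q, ?_, ?_⟩
    · intro x hx y hy hxy
      rw [Finset.mem_coe, mem_verts_pad] at hx hy
      obtain ⟨l, hl, hxl⟩ := hx
      obtain ⟨m, hm, hym⟩ := hy
      rw [mem_padE] at hxl hym
      rcases hxl with ⟨v, hv, rfl⟩ | ⟨i, hi, _, rfl⟩ <;>
        rcases hym with ⟨v', hv', rfl⟩ | ⟨j, hj, _, rfl⟩
      · rw [q0, q0] at hxy
        rw [h1 (hvm l hl v hv) (hvm m hm v' hv') hxy]
      · rw [q0, q1 m hm j hj] at hxy
        exact absurd hxy.symm (hz3 _ (hem m hm) j v (hvm l hl v hv))
      · rw [q0, q1 l hl i hi] at hxy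
        exact absurd hxy (hz3 _ (hem l hl) i v' (hvm m hm v' hv'))
      · rw [q1 l hl i hi, q1 m hm j hj] at hxy
        by_cases hlm : l.toFinset = m.toFinset
        · rw [hlm] at hxy
          rw [hz1 _ (hem m hm) hxy, (code_eq_iff hE hl hm).2 hlm]
        · exfalso
          apply hz4 _ (hem l hl) i _ (hem m hm) (Ne.symm hlm)
          rw [hxy]
          exact hz2 _ (hem m hm) j
    · intro e he
      rw [mem_hedges_pad] at he
      obtain ⟨l, hl, rfl⟩ := he
      refine ⟨p (u l.toFinset), p (w l.toFinset), fun x hx => ?_⟩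
      rw [mem_verts_pad] at hx
      obtain ⟨m, hm, hxm⟩ := hx
      rw [List.mem_toFinset]
      have hxm' := hxm
      rw [mem_padE] at hxm
      rcases hxm with ⟨v, hv, rfl⟩ | ⟨i, hi, _, rfl⟩
      · rw [q0, mem_even, hseg _ (hem l hl) v (hvm m hm v hv), List.mem_toFinset]
      · rw [q1 m hm i hi]
        by_cases hlm : l.toFinset = m.toFinset
        · rw [padE_congr hE hl hm hlm, hlm]
          exact ⟨fun _ => hxm', fun _ => hz2 _ (hem m hm) i⟩
        · constructor
          · intro h
            exact absurd h (hz4 _ (hem m hm) i _ (hem l hl) hlm)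
          · intro h
            exfalso
            rw [mem_padE] at h
            rcases h with ⟨v, _, h3⟩ | ⟨j, hj, _, h3⟩
            · omega
            · have h4 := (dk hi hj (by omega : code m * k + i = code l * k + j)).1
              exact hlm ((code_eq_iff hE hl hm).1 h4.symm)

end Pool.Agent.Y605.HY
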