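import Pool.Agent.Y605.HY.Pad

/-! The reduction to `k`-uniform linear hypergraphs; hypergraphs of rank two. -/

set_option autoImplicit false

namespace Pool.Agent.NPC.Y605HY

open Pool.Agent.NPC Pool.Agent.Y605.HY

section poly

variable {α : Type} [TEnc α]

theorem poly_hi {l : α → List ℕ} (hl : Poly l) : Poly (fun a => hi (l a)) :=
  Poly.max (Poly.head?_getD hl 0) (Poly.max (Poly.head?_getD hl.tail 0)
    (Poly.head?_getD hl.tail.tail 0))

theorem poly_lo {l : α → List ℕ} (hl : Poly l) : Poly (fun a => lo (l a)) :=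
  Poly.min (Poly.head?_getD hl 0) (Poly.min (Poly.head?_getD hl.tail 0)
    (Poly.head?_getD (Poly.append hl.tail.tail hl) 0))

theorem poly_code {l : α → List ℕ} (hl : Poly l) : Poly (fun a => code (l a)) :=
  Poly.add (Poly.mul (Poly.add (poly_lo hl) (poly_hi hl)) (Poly.add (poly_lo hl) (poly_hi hl)))
    (poly_lo hl)

theorem poly_padE (k : ℕ) {l : α → List ℕ} (hl : Poly l) : Poly (fun a => padE k (l a)) := by
  unfold padE
  refine Poly.append (Poly.map (F := fun (_ : α) (v : ℕ) => 2 * v) hl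
    (Poly.mul (Poly.const 2) (Poly.snd Poly.id))) ?_
  refine Poly.map (F := fun (a : α) (i : ℕ) => 2 * (code (l a) * k + i) + 1)
    (Poly.filter (p := fun (a : α) (i : ℕ) => decide ((l a).length ≤ i)) (Poly.const _)
      (Poly.decide_le (Poly.length (hl.comp (Poly.fst Poly.id))) (Poly.snd Poly.id))) ?_
  exact Poly.succ (Poly.mul (Poly.const 2) (Poly.add
    (Poly.mul (poly_code (hl.comp (Poly.fst Poly.id))) (Poly.const k)) (Poly.snd Poly.id)))

theorem poly_pad (k : ℕ) {E : α → List (List ℕ)} (hE : Poly E) :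
    Poly (fun a => pad k (E a)) := by
  have h : Poly (fun a => (E a).map (padE k)) :=
    Poly.map (F := fun (_ : α) (l : List ℕ) => padE k l) hE (poly_padE k (Poly.snd Poly.id))
  exact Poly.pair (Poly.flatten h) h

end poly

end Pool.Agent.NPC.Y605HY

namespace Pool.Agent.Y605.HY

open Pool.Agent.NPC Pool.Agent.NPC.ER Pool.Agent.NPC.Y605HY
  Pool.Agent.Results.MP_cb2e2a_lc.RankThree

theorem absGad_len : ∀ a ∈ H621R2.absGad, a.length = 3 := by decide

theorem hyp_nodup {P : List (ℕ × ℕ)} {T : List (ℕ × ℕ × ℕ)} (hP : ∀ u ∈ P, u.1 ≠ u.2)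
    (hT : ∀ u ∈ T, u.1 ≠ u.2.1 ∧ u.1 ≠ u.2.2 ∧ u.2.1 ≠ u.2.2) {e : List ℕ}
    (he : e ∈ H621R2.hyp P T) : (2 ≤ e.length ∧ e.length ≤ 3) ∧ e.Nodup := by
  rw [H621R2.hyp, List.mem_append, List.mem_map, H621R2.mem_gads_iff] at he
  rcases he with ⟨u, hu, rfl⟩ | ⟨q, hq, he⟩
  · have h := hP u hu
    refine ⟨by simp, ?_⟩
    simp only [List.nodup_cons, List.mem_cons, List.not_mem_nil, or_false, not_false_eq_true,
      List.nodup_nil, and_true]
    omega
  · have hu : q.1 ∈ T := by
      have := List.mem_zipIdx hq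
      rw [this.2.2]
      exact List.getElem_mem _
    obtain ⟨a, b, c⟩ := hT _ hu
    have h1 := H621R2.gad_card a b c he
    have h2 : e.length = 3 := by
      rw [H621R2.gad_eq, List.mem_map] at he
      obtain ⟨m, hm, rfl⟩ := he
      rw [List.length_map]
      exact absGad_len m hm
    refine ⟨by omega, ?_⟩
    rw [List.card_toFinset] at h1
    exact List.dedup_eq_self.1 ((List.dedup_sublist e).eq_of_length (by omega))

theorem good_edges (S : List Con) : Good (H621R2.edgesOf S) where
  len := fun _ hl => (hyp_nodup prs_ne (fun _ hu => H621R2.trip_distinct hu) hl).1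
  nd := fun _ hl => (hyp_nodup prs_ne (fun _ hu => H621R2.trip_distinct hu) hl).2
  lin := fun _ hl _ hm hne => H621R2.hyp_lin (fun _ hu => H621R2.trip_distinct hu) hl hm hne

theorem hard {k : ℕ} (hk : 3 ≤ k) (L : Set (List Bool)) (hL : InER L) :
    ∃ f : List Bool → HG, PolyTime (fun w => bits (f w)) ∧
      (∀ w, IsHypergraph (f w) ∧ IsLinear (f w) ∧ ∀ e ∈ hedges (f w), e.card = k) ∧
      ∀ w, w ∈ L ↔ Realizable (f w) := by
  obtain ⟨g, hg, hL⟩ := hL
  have h1 : PC (id : List Bool → List Bool) (bits : Fm → List Bool) g :=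
    H642R2.TMSim.polyTime_toPC hg
  have h2 : NPC.Poly (fun φ : Fm => pad k (H621R2.edgesOf (sysOf φ))) :=
    poly_pad k (H621R2.poly_edgesOf (poly_sysOf NPC.Poly.id))
  have h3 : PC (id : List Bool → List Bool) (bits : HG → List Bool)
      (fun x => pad k (H621R2.edgesOf (sysOf (g x)))) :=
    PC.comp (g := fun φ : Fm => pad k (H621R2.edgesOf (sysOf φ)))
      (eb := (bits : Fm → List Bool)) h2 h1
  have h4 : PC (id : List Bool → List Bool) (id : List Bool → List Bool)
    (fun x => bits (pad k (H621R2.edgesOf (sysOf (g x))))) := h3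
  refine ⟨fun x => pad k (H621R2.edgesOf (sysOf (g x))), PC.toPolyTime h4,
    fun w => props_pad (good_edges _) hk, fun w => ?_⟩
  rw [realizable_pad (good_edges _)]
  change w ∈ L ↔ Realizable (hgOf (sysOf (g w)))
  rw [hL, ← sat_sysOf, realizable_iff]
  exact H621R2.edgesOf_correct _

/-- Hypergraphs of rank two are realizable: put the vertices on a parabola. -/
theorem rank_two (H : HG) (h1 : IsHypergraph H) (h2 : RankLE 2 H) : Realizable H := by
  refine ⟨fun v => ((v : ℝ), (v : ℝ) ^ 2), ?_, ?_⟩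
  · intro x _ y _ hxy
    simpa using congrArg Prod.fst hxy
  · intro e he
    have hc : e.card = 2 := le_antisymm (h2 e he) (h1 e he).2
    obtain ⟨a, b, _, rfl⟩ := Finset.card_eq_two.1 hc
    refine ⟨((a : ℝ), (a : ℝ) ^ 2), ((b : ℝ), (b : ℝ) ^ 2), fun v _ => ?_⟩
    rw [Finset.mem_insert, Finset.mem_singleton]
    constructor
    · intro hv
      rw [segment_eq_image'] at hv
      obtain ⟨t, _, ht⟩ := hv
      have e1 := congrArg Prod.fst ht
      have e2 := congrArg Prod.snd ht
      simp only [Prod.fst_add, Prod.snd_add, Prod.smul_fst, Prod.smul_snd, Prod.fst_sub,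
        Prod.snd_sub, smul_eq_mul] at e1 e2
      have e3 : ((v : ℝ) - a) * ((v : ℝ) - b) = 0 := by
        have : (v : ℝ) ^ 2 - (a + b) * v + a * b = 0 := by
          rw [← e2, ← e1]; ring
        linarith
      rcases mul_eq_zero.1 e3 with h | h
      · left; exact_mod_cast sub_eq_zero.1 h
      · right; exact_mod_cast sub_eq_zero.1 h
    · rintro (rfl | rfl)
      · exact left_mem_segment _ _ _
      · exact right_mem_segment _ _ _

end Pool.Agent.Y605.HY
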